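import Mathlib
import Pool.Agent.Shared.ThreeSquares

/-!
Quaternion neighbours of a representation as a sum of three squares.
-/

set_option autoImplicit false

namespace Pool.Agent.Lib.MP_f6c7cf_nt

open Quaternion Pool.Agent.Shared.ThreeSquares

lemma nsq (α : ℍ[ℤ]) : normSq α = α.re ^ 2 + α.imI ^ 2 + α.imJ ^ 2 + α.imK ^ 2 := normSq_def' α

lemma near4 (α : ℍ[ℤ]) (m : ℤ) (hm : 0 < m) : ∃ δ : ℍ[ℤ],
    4 * (α - (m : ℍ[ℤ]) * δ).re ^ 2 ≤ m ^ 2 ∧ 4 * (α - (m : ℍ[ℤ]) * δ).imI ^ 2 ≤ m ^ 2 ∧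
    4 * (α - (m : ℍ[ℤ]) * δ).imJ ^ 2 ≤ m ^ 2 ∧ 4 * (α - (m : ℍ[ℤ]) * δ).imK ^ 2 ≤ m ^ 2 := by
  obtain ⟨a, ha⟩ := near α.re m hm
  obtain ⟨b, hb⟩ := near α.imI m hm
  obtain ⟨c, hc⟩ := near α.imJ m hm
  obtain ⟨d, hd⟩ := near α.imK m hm
  refine ⟨⟨a, b, c, d⟩, ?_, ?_, ?_, ?_⟩ <;> simp [mul_comm m] <;> assumption

lemma half_sq {m g a t : ℤ} (h : 4 * g ^ 2 = m ^ 2) (e : a = g + m * t) :
    ∃ u : ℤ, 4 * a ^ 2 = m ^ 2 * (1 + 4 * u) := by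
  have h1 : (2 * g - m) * (2 * g + m) = 0 := by linarith
  rcases mul_eq_zero.mp h1 with h2 | h2
  · refine ⟨t + t ^ 2, ?_⟩
    have : m = 2 * g := by linarith
    subst e; rw [this]; ring
  · refine ⟨-t + t ^ 2, ?_⟩
    have : m = -(2 * g) := by linarith
    subst e; rw [this]; ring

lemma sq4_zero {a b c d : ℤ} (h : a ^ 2 + b ^ 2 + c ^ 2 + d ^ 2 = 0) :
    a = 0 ∧ b = 0 ∧ c = 0 ∧ d = 0 := by
  have := sq_nonneg a; have := sq_nonneg b; have := sq_nonneg c; have := sq_nonneg d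
  refine ⟨?_, ?_, ?_, ?_⟩ <;> apply pow_eq_zero_iff (two_ne_zero) |>.mp <;> linarith

lemma sq4_nonneg {a b c d m k : ℤ} (hm : 0 < m) (h : a ^ 2 + b ^ 2 + c ^ 2 + d ^ 2 = m * k) :
    0 ≤ k := by
  by_contra hk; push Not at hk
  have : m * k < 0 := mul_neg_of_pos_of_neg hm hk
  have := sq_nonneg a; have := sq_nonneg b; have := sq_nonneg c; have := sq_nonneg d
  linarith

lemma sq4_max {a b c d m k : ℤ} (hm : 0 < m) (h : a ^ 2 + b ^ 2 + c ^ 2 + d ^ 2 = m * k)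
    (hk : m ≤ k) (h0 : 4 * a ^ 2 ≤ m ^ 2) (h1 : 4 * b ^ 2 ≤ m ^ 2) (h2 : 4 * c ^ 2 ≤ m ^ 2)
    (h3 : 4 * d ^ 2 ≤ m ^ 2) :
    4 * a ^ 2 = m ^ 2 ∧ 4 * b ^ 2 = m ^ 2 ∧ 4 * c ^ 2 = m ^ 2 ∧ 4 * d ^ 2 = m ^ 2 := by
  have : m * m ≤ m * k := mul_le_mul_of_nonneg_left hk hm.le
  have e : m ^ 2 = m * m := sq m
  refine ⟨?_, ?_, ?_, ?_⟩ <;> linarith

/-- Euler descent inside the right ideal of solutions of `q * α = 0 mod T`. -/
lemma desc (T : ℕ) (hT : T.Prime) (q : ℍ[ℤ]) : ∀ m : ℕ, 0 < m → m < T → ∀ α β : ℍ[ℤ],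
    normSq α = m * T → q * α = ((T : ℤ) : ℍ[ℤ]) * β →
    ∃ α' β' : ℍ[ℤ], normSq α' = T ∧ q * α' = ((T : ℤ) : ℍ[ℤ]) * β' := by
  intro m
  induction m using Nat.strong_induction_on with
  | _ m ih =>
    intro hm hmT α β hn hq
    by_cases h1 : m = 1
    · subst h1; exact ⟨α, β, by simpa using hn, hq⟩
    have hm' : (0 : ℤ) < m := by exact_mod_cast hm
    have hnd : ¬ (m : ℤ) ∣ T := by
      intro h
      have : m ∣ T := by exact_mod_cast h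
      rcases (Nat.dvd_prime hT).mp this with h | h <;> omega
    obtain ⟨δ, h0, h2, h3, h4⟩ := near4 (star α) m hm'
    set γ := star α - ((m : ℤ) : ℍ[ℤ]) * δ with hγ
    have e0 : α.re = γ.re + m * δ.re := by simp [hγ]
    have e1 : -α.imI = γ.imI + m * δ.imI := by simp [hγ]
    have e2 : -α.imJ = γ.imJ + m * δ.imJ := by simp [hγ]
    have e3 : -α.imK = γ.imK + m * δ.imK := by simp [hγ]
    have hn' := hn
    rw [nsq] at hn'
    set k : ℤ := T - 2 * (γ.re * δ.re + γ.imI * δ.imI + γ.imJ * δ.imJ + γ.imK * δ.imK) -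
      m * (δ.re ^ 2 + δ.imI ^ 2 + δ.imJ ^ 2 + δ.imK ^ 2) with hk
    have hγn : normSq γ = m * k := by
      rw [nsq, hk]
      have a1 : α.imI = -(γ.imI + m * δ.imI) := by linarith
      have a2 : α.imJ = -(γ.imJ + m * δ.imJ) := by linarith
      have a3 : α.imK = -(γ.imK + m * δ.imK) := by linarith
      rw [e0, a1, a2, a3] at hn'
      linear_combination hn'
    have hγn' := hγn
    rw [nsq] at hγn'
    have hk0 : 0 ≤ k := sq4_nonneg hm' hγn'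
    have hkne : k ≠ 0 := by
      intro h
      rw [h, mul_zero] at hγn'
      obtain ⟨z0, z1, z2, z3⟩ := sq4_zero hγn'
      apply hnd
      rw [h, z0, z1, z2, z3] at hk
      exact ⟨δ.re ^ 2 + δ.imI ^ 2 + δ.imJ ^ 2 + δ.imK ^ 2, by linarith⟩
    have hkm : k < m := by
      by_contra h; push Not at h
      obtain ⟨q0, q1, q2, q3⟩ := sq4_max hm' hγn' h h0 h2 h3 h4
      obtain ⟨u0, v0⟩ := half_sq q0 e0
      obtain ⟨u1, v1⟩ := half_sq q1 e1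
      obtain ⟨u2, v2⟩ := half_sq q2 e2
      obtain ⟨u3, v3⟩ := half_sq q3 e3
      apply hnd
      refine ⟨1 + u0 + u1 + u2 + u3, ?_⟩
      have : (4 * m : ℤ) * T = (4 * m) * (m * (1 + u0 + u1 + u2 + u3)) := by
        linear_combination v0 + v1 + v2 + v3 - 4 * hn'
      exact mul_left_cancel₀ (by positivity) this
    obtain ⟨k', hk'⟩ := Int.eq_ofNat_of_zero_le hk0
    have hc : ∀ (x : ℤ) (y : ℍ[ℤ]), y * (x : ℍ[ℤ]) = (x : ℍ[ℤ]) * y :=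
      fun x y => (Int.cast_commute x y).eq.symm
    have hαγ : α * γ = ((m : ℤ) : ℍ[ℤ]) * (((T : ℤ) : ℍ[ℤ]) - α * δ) := by
      rw [hγ, mul_sub, self_mul_star, hn, ← mul_assoc, hc, mul_assoc, mul_sub]
      congr 1
      ext <;> simp
    refine ih k' (by omega) (by omega) (by omega) (((T : ℤ) : ℍ[ℤ]) - α * δ) (q - β * δ) ?_ ?_
    · have h5 := congrArg normSq hαγ
      rw [map_mul, map_mul, hn, hγn] at h5
      have h6 : normSq (((m : ℤ) : ℍ[ℤ])) = (m : ℤ) ^ 2 := by rw [nsq]; simp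
      rw [h6] at h5
      have h7 : (m : ℤ) ^ 2 * normSq (((T : ℤ) : ℍ[ℤ]) - α * δ) = (m : ℤ) ^ 2 * (k' * T) := by
        rw [← h5, hk']; ring
      exact mul_left_cancel₀ (by positivity) h7
    · rw [mul_sub, ← mul_assoc, hq, hc, mul_sub, mul_assoc]

/-- A neighbour of a three-square representation at a prime `T = 3 mod 4`. -/
lemma rotate (T : ℕ) (hT : T.Prime) (h3 : T % 4 = 3) (A B C lam : ℤ)
    (hl : (T : ℤ) ∣ A ^ 2 + B ^ 2 + C ^ 2 + lam ^ 2) (hl0 : ¬ (T : ℤ) ∣ lam) :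
    ∃ A' B' C' r1 r2 r3 : ℤ, A' ^ 2 + B' ^ 2 + C' ^ 2 = A ^ 2 + B ^ 2 + C ^ 2 ∧
      T * A' = r1 * A + r2 * B + r3 * C ∧ r1 ^ 2 + r2 ^ 2 + r3 ^ 2 = (T : ℤ) ^ 2 ∧
      0 < r2 ^ 2 + r3 ^ 2 ∧ A' % 2 = A % 2 := by
  have hT' : (0 : ℤ) < T := by exact_mod_cast hT.pos
  let q : ℍ[ℤ] := ⟨-lam, A, B, C⟩
  let α0 : ℍ[ℤ] := ⟨lam, A, B, C⟩
  obtain ⟨g, hg⟩ := hl
  obtain ⟨δ, h0, h1, h2, h4⟩ := near4 α0 T hT'
  set α := α0 - ((T : ℤ) : ℍ[ℤ]) * δ with hα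
  have e0 : α.re = lam - T * δ.re := by simp [hα, α0]
  have e1 : α.imI = A - T * δ.imI := by simp [hα, α0]
  have e2 : α.imJ = B - T * δ.imJ := by simp [hα, α0]
  have e3 : α.imK = C - T * δ.imK := by simp [hα, α0]
  set k : ℤ := g - 2 * (lam * δ.re + A * δ.imI + B * δ.imJ + C * δ.imK) +
      T * (δ.re ^ 2 + δ.imI ^ 2 + δ.imJ ^ 2 + δ.imK ^ 2) with hk
  have hn : normSq α = k * T := by
    rw [nsq, e0, e1, e2, e3, hk]; linear_combination hg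
  have hn' := hn
  rw [nsq] at hn'
  have hre : α.re ≠ 0 := by
    intro h; apply hl0; exact ⟨δ.re, by linarith⟩
  have hk0 : 0 < k := by
    by_contra h; push Not at h
    have : k * T ≤ 0 := mul_nonpos_of_nonpos_of_nonneg h hT'.le
    have : 0 < α.re ^ 2 := by positivity
    nlinarith [sq_nonneg α.imI, sq_nonneg α.imJ, sq_nonneg α.imK]
  have hkT : k < T := by
    have hodd : 4 * α.re ^ 2 ≠ (T : ℤ) ^ 2 := by
      intro h
      obtain ⟨s, hs⟩ : ∃ s : ℤ, (T : ℤ) = 2 * s + 1 := ⟨T / 2, by omega⟩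
      rw [hs] at h
      have : (2 * s + 1) ^ 2 = 4 * (s ^ 2 + s) + 1 := by ring
      omega
    have h0' : 4 * α.re ^ 2 < (T : ℤ) ^ 2 := lt_of_le_of_ne h0 hodd
    by_contra h; push Not at h
    have : (T : ℤ) * T ≤ k * T := mul_le_mul_of_nonneg_right h hT'.le
    nlinarith
  obtain ⟨k', hk'⟩ := Int.eq_ofNat_of_zero_le hk0.le
  have hq : q * α = ((T : ℤ) : ℍ[ℤ]) * (((-g : ℤ) : ℍ[ℤ]) - q * δ) := by
    have hc : ∀ (x : ℤ) (y : ℍ[ℤ]), y * (x : ℍ[ℤ]) = (x : ℍ[ℤ]) * y :=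
      fun x y => (Int.cast_commute x y).eq.symm
    rw [hα, mul_sub, mul_sub, ← mul_assoc, hc, mul_assoc]
    congr 1
    ext <;> simp [q, α0]
    · linear_combination -hg
    · ring
    · ring
    · ring
  obtain ⟨a, b, hna, hab⟩ := desc T hT q k' (by omega) (by omega) α _ (by rw [hn, hk']) hq
  rw [nsq] at hna
  have f0 := congrArg QuaternionAlgebra.re hab
  have f1 := congrArg QuaternionAlgebra.imI hab
  have f2 := congrArg QuaternionAlgebra.imJ hab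
  have f3 := congrArg QuaternionAlgebra.imK hab
  simp [q] at f0 f1 f2 f3
  obtain ⟨a0, a1, a2, a3⟩ := a
  obtain ⟨b0, b1, b2, b3⟩ := b
  simp only at hna f0 f1 f2 f3
  have g1 : (T : ℤ) * (a0 * b1 - a1 * b0 - a2 * b3 + a3 * b2) =
      (a0 ^ 2 + a1 ^ 2 - a2 ^ 2 - a3 ^ 2) * A + 2 * (a1 * a2 + a0 * a3) * B +
        2 * (a1 * a3 - a0 * a2) * C := by
    linear_combination -(a0 * f1 - a1 * f0 - a2 * f3 + a3 * f2)
  have g2 : (T : ℤ) * (a0 * b2 + a1 * b3 - a2 * b0 - a3 * b1) =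
      2 * (a1 * a2 - a0 * a3) * A + (a0 ^ 2 - a1 ^ 2 + a2 ^ 2 - a3 ^ 2) * B +
        2 * (a2 * a3 + a0 * a1) * C := by
    linear_combination -(a0 * f2 + a1 * f3 - a2 * f0 - a3 * f1)
  have g3 : (T : ℤ) * (a0 * b3 - a1 * b2 + a2 * b1 - a3 * b0) =
      2 * (a1 * a3 + a0 * a2) * A + 2 * (a2 * a3 - a0 * a1) * B +
        (a0 ^ 2 - a1 ^ 2 - a2 ^ 2 + a3 ^ 2) * C := by
    linear_combination -(a0 * f3 - a1 * f2 + a2 * f1 - a3 * f0)
  refine ⟨_, a0 * b2 + a1 * b3 - a2 * b0 - a3 * b1, a0 * b3 - a1 * b2 + a2 * b1 - a3 * b0,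
    _, _, _, ?_, g1, ?_, ?_, ?_⟩
  rotate_left
  · rw [← hna]; ring
  · have e : (2 * (a1 * a2 + a0 * a3)) ^ 2 + (2 * (a1 * a3 - a0 * a2)) ^ 2 =
        4 * ((a0 ^ 2 + a1 ^ 2) * (a2 ^ 2 + a3 ^ 2)) := by ring
    rw [e]
    have two : ∀ x y : ℤ, x ^ 2 + y ^ 2 ≠ T := by
      intro x y h
      have hx : x ^ 2 % 4 = 0 ∨ x ^ 2 % 4 = 1 := by
        rcases Int.emod_two_eq_zero_or_one x with h | h
        · obtain ⟨t, rfl⟩ : ∃ t, x = 2 * t := ⟨x / 2, by omega⟩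
          left; have : (2 * t) ^ 2 = 4 * t ^ 2 := by ring
          omega
        · obtain ⟨t, rfl⟩ : ∃ t, x = 2 * t + 1 := ⟨x / 2, by omega⟩
          right; have : (2 * t + 1) ^ 2 = 4 * (t ^ 2 + t) + 1 := by ring
          omega
      have hy : y ^ 2 % 4 = 0 ∨ y ^ 2 % 4 = 1 := by
        rcases Int.emod_two_eq_zero_or_one y with h | h
        · obtain ⟨t, rfl⟩ : ∃ t, y = 2 * t := ⟨y / 2, by omega⟩
          left; have : (2 * t) ^ 2 = 4 * t ^ 2 := by ring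
          omega
        · obtain ⟨t, rfl⟩ : ∃ t, y = 2 * t + 1 := ⟨y / 2, by omega⟩
          right; have : (2 * t + 1) ^ 2 = 4 * (t ^ 2 + t) + 1 := by ring
          omega
      omega
    have p1 : 0 < a0 ^ 2 + a1 ^ 2 := by
      rcases (by positivity : 0 ≤ a0 ^ 2 + a1 ^ 2).eq_or_lt with h | h
      · exact absurd (by linarith) (two a2 a3)
      · exact h
    have p2 : 0 < a2 ^ 2 + a3 ^ 2 := by
      rcases (by positivity : 0 ≤ a2 ^ 2 + a3 ^ 2).eq_or_lt with h | h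
      · exact absurd (by linarith) (two a0 a1)
      · exact h
    positivity
  · obtain ⟨s, hs⟩ : ∃ s : ℤ, (T : ℤ) = 2 * s + 1 := ⟨T / 2, by omega⟩
    have e : (a0 * b1 - a1 * b0 - a2 * b3 + a3 * b2) - A =
        2 * (s * A - (a2 ^ 2 + a3 ^ 2) * A + (a1 * a2 + a0 * a3) * B + (a1 * a3 - a0 * a2) * C
          - s * (a0 * b1 - a1 * b0 - a2 * b3 + a3 * b2)) := by
      rw [hs] at g1 hna
      linear_combination g1 + A * hna
    omega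
  · have : (T : ℤ) ^ 2 * ((a0 * b1 - a1 * b0 - a2 * b3 + a3 * b2) ^ 2 +
        (a0 * b2 + a1 * b3 - a2 * b0 - a3 * b1) ^ 2 + (a0 * b3 - a1 * b2 + a2 * b1 - a3 * b0) ^ 2) =
        (T : ℤ) ^ 2 * (A ^ 2 + B ^ 2 + C ^ 2) := by
      have e : (T : ℤ) ^ 2 * ((a0 * b1 - a1 * b0 - a2 * b3 + a3 * b2) ^ 2 +
        (a0 * b2 + a1 * b3 - a2 * b0 - a3 * b1) ^ 2 + (a0 * b3 - a1 * b2 + a2 * b1 - a3 * b0) ^ 2) =
        (T * (a0 * b1 - a1 * b0 - a2 * b3 + a3 * b2)) ^ 2 +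
          (T * (a0 * b2 + a1 * b3 - a2 * b0 - a3 * b1)) ^ 2 +
          (T * (a0 * b3 - a1 * b2 + a2 * b1 - a3 * b0)) ^ 2 := by ring
      rw [e, g1, g2, g3, ← hna]; ring
    exact mul_left_cancel₀ (by positivity) this

/-- Two splittings of one number as a square plus a small remainder force the number to be small. -/
lemma gap {D1 D2 r1 r2 R Z : ℤ} (h1 : D1 ^ 2 + r1 = Z) (h2 : D2 ^ 2 + r2 = Z) (h0 : 0 ≤ r1)
    (hlt : r1 < r2) (hR : r2 ≤ R) : Z ≤ R ^ 2 + R := by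
  have a1 : |D2| < |D1| := by
    apply abs_lt_of_sq_lt_sq _ (abs_nonneg _)
    rw [sq_abs]; linarith
  have a2 : |D2| + 1 ≤ |D1| := a1
  have a3 : |D1| ^ 2 = D1 ^ 2 := sq_abs _
  have a4 : |D2| ^ 2 = D2 ^ 2 := sq_abs _
  have a5 := abs_nonneg D2
  have a6 : |D1| ≤ R := by nlinarith
  nlinarith [abs_nonneg D1]

end Pool.Agent.Lib.MP_f6c7cf_nt
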