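import Mathlib
import Pool.Agent.Shared.ThreeSquares
import Pool.Agent.Lib.MP_f6c7cf_nt.Rot

/-!
Representations `n = x^2+y^2+z^2+4w^2` whose exponents follow a prescribed linear pattern.
-/

set_option autoImplicit false

namespace Pool.Agent.Lib.MP_f6c7cf_nt

open Pool.Agent.Shared.ThreeSquares

lemma sq_par (x : ℤ) : (x % 2 = 0 ∧ x ^ 2 % 4 = 0) ∨ (x % 2 = 1 ∧ x ^ 2 % 8 = 1) := by
  rcases Int.emod_two_eq_zero_or_one x with h | h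
  · obtain ⟨t, rfl⟩ : ∃ t, x = 2 * t := ⟨x / 2, by omega⟩
    left; have : (2 * t) ^ 2 = 4 * t ^ 2 := by ring
    omega
  · obtain ⟨t, rfl⟩ : ∃ t, x = 2 * t + 1 := ⟨x / 2, by omega⟩
    right
    obtain ⟨s, hs⟩ := Int.even_mul_succ_self t
    have : (2 * t + 1) ^ 2 = 4 * (t * (t + 1)) + 1 := by ring
    omega

lemma sq_three (x : ℤ) : (x % 3 = 0 ∧ x ^ 2 % 3 = 0) ∨ (x % 3 = 1 ∧ x ^ 2 % 3 = 1) ∨
    (x % 3 = 2 ∧ x ^ 2 % 3 = 1) := by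
  obtain ⟨t, r, h, hr⟩ : ∃ t r, x = 3 * t + r ∧ (r = 0 ∨ r = 1 ∨ r = 2) :=
    ⟨x / 3, x % 3, by omega, by omega⟩
  have : x ^ 2 = 3 * (3 * t ^ 2 + 2 * t * r) + r ^ 2 := by rw [h]; ring
  rcases hr with rfl | rfl | rfl <;> omega

lemma rep_int (T : ℤ) (h0 : 0 ≤ T) (h : T % 4 = 1 ∨ T % 4 = 2 ∨ T % 8 = 3) :
    ∃ A B C : ℤ, A ^ 2 + B ^ 2 + C ^ 2 = T := by
  obtain ⟨t, rfl⟩ := Int.eq_ofNat_of_zero_le h0
  exact three_squares_int t (by omega)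

lemma rep_two (T : ℤ) (h0 : 0 ≤ T) (h : T % 4 = 2) :
    ∃ A B C : ℤ, A ^ 2 + B ^ 2 + C ^ 2 = T ∧ A % 2 = 0 ∧ B % 2 = 1 ∧ C % 2 = 1 := by
  obtain ⟨A, B, C, e⟩ := rep_int T h0 (by omega)
  have hA := sq_par A; have hB := sq_par B; have hC := sq_par C
  by_cases a : A % 2 = 0
  · exact ⟨A, B, C, e, a, by omega, by omega⟩
  · by_cases b : B % 2 = 0
    · exact ⟨B, A, C, by linarith, b, by omega, by omega⟩
    · exact ⟨C, A, B, by linarith, by omega, by omega, by omega⟩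

lemma rep_one (T : ℤ) (h0 : 0 ≤ T) (h : T % 4 = 1) :
    ∃ A B C : ℤ, A ^ 2 + B ^ 2 + C ^ 2 = T ∧ A % 2 = 1 ∧ B % 2 = 0 ∧ C % 2 = 0 := by
  obtain ⟨A, B, C, e⟩ := rep_int T h0 (by omega)
  have hA := sq_par A; have hB := sq_par B; have hC := sq_par C
  by_cases a : A % 2 = 1
  · exact ⟨A, B, C, e, a, by omega, by omega⟩
  · by_cases b : B % 2 = 1
    · exact ⟨B, A, C, by linarith, b, by omega, by omega⟩
    · exact ⟨C, A, B, by linarith, by omega, by omega, by omega⟩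

/-- Residue classes mod 32 of even numbers that are sums of three squares. -/
def Good (T : ℤ) : Prop :=
  T % 4 = 2 ∨ T % 32 = 4 ∨ T % 32 = 20 ∨ T % 32 = 8 ∨ T % 32 = 24 ∨ T % 32 = 12

lemma rep_four (T : ℤ) (h0 : 0 ≤ T) (h : Good T) (h4 : T % 4 = 0) :
    ∃ A B C : ℤ, 4 * (A ^ 2 + B ^ 2 + C ^ 2) = T := by
  unfold Good at h
  obtain ⟨A, B, C, e⟩ := rep_int (T / 4) (by omega) (by omega)
  exact ⟨A, B, C, by omega⟩

lemma rep_good (T : ℤ) (h0 : 0 ≤ T) (h : Good T) : ∃ A B C : ℤ, A ^ 2 + B ^ 2 + C ^ 2 = T := by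
  by_cases h4 : T % 4 = 0
  · obtain ⟨A, B, C, e⟩ := rep_four T h0 h h4
    exact ⟨2 * A, 2 * B, 2 * C, by linarith⟩
  · unfold Good at h
    exact rep_int T h0 (by omega)

lemma exists_good (t u : ℤ) (ht : t % 2 = 1) (hu : u % 8 = 1) :
    ∃ j : ℤ, 1 ≤ j ∧ j ≤ 7 ∧ j % 2 = 1 ∧ Good (t - u * j ^ 2) ∧ Good (t - u * (j + 16) ^ 2) := by
  have key : Good (t - u) ∨ Good (t - 9 * u) ∨ Good (t - 25 * u) ∨ Good (t - 49 * u) := by
    unfold Good; omega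
  rcases key with h | h | h | h
  · exact ⟨1, by norm_num, by norm_num, by norm_num, by unfold Good at *; omega,
      by unfold Good at *; omega⟩
  · exact ⟨3, by norm_num, by norm_num, by norm_num, by unfold Good at *; omega,
      by unfold Good at *; omega⟩
  · exact ⟨5, by norm_num, by norm_num, by norm_num, by unfold Good at *; omega,
      by unfold Good at *; omega⟩
  · exact ⟨7, by norm_num, by norm_num, by norm_num, by unfold Good at *; omega,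
      by unfold Good at *; omega⟩

/-- Representations with prescribed coordinate sum `3 s`. -/
lemma sum_rep (n s : ℤ) (h0 : 0 ≤ 3 * n - 9 * s ^ 2) (hg : Good (3 * n - 9 * s ^ 2)) :
    ∃ a b c w : ℤ, a + b + c = 3 * s ∧ a ^ 2 + b ^ 2 + c ^ 2 + 4 * w ^ 2 = n := by
  obtain ⟨A, B, C, e⟩ := rep_good _ h0 hg
  have main : ∀ A B C : ℤ, A ^ 2 + B ^ 2 + C ^ 2 = 3 * n - 9 * s ^ 2 → A % 3 = B % 3 → A % 3 = C % 3 →
      ∃ a b c w : ℤ, a + b + c = 3 * s ∧ a ^ 2 + b ^ 2 + c ^ 2 + 4 * w ^ 2 = n := by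
    intro A B C e h1 h2
    have hA := sq_par A; have hB := sq_par B; have hC := sq_par C
    unfold Good at hg
    obtain ⟨w, hw⟩ : ∃ w, A + B + C = 6 * w := ⟨(A + B + C) / 6, by omega⟩
    obtain ⟨u, hu⟩ : ∃ u, A - C = 3 * u := ⟨(A - C) / 3, by omega⟩
    obtain ⟨v, hv⟩ : ∃ v, B - A = 3 * v := ⟨(B - A) / 3, by omega⟩
    have eA : A = 2 * w + u - v := by omega
    have eB : B = 2 * w + u + 2 * v := by omega
    have eC : C = 2 * w - 2 * u - v := by omega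
    refine ⟨s + u, s + v, s - u - v, w, by ring, ?_⟩
    rw [eA, eB, eC] at e
    nlinarith [e]
  have hA := sq_three A; have hB := sq_three B; have hC := sq_three C
  have nB : (-B) ^ 2 = B ^ 2 := by ring
  have nC : (-C) ^ 2 = C ^ 2 := by ring
  by_cases h1 : A % 3 = B % 3
  · by_cases h2 : A % 3 = C % 3
    · exact main A B C e h1 h2
    · exact main A B (-C) (by linarith) h1 (by omega)
  · by_cases h2 : A % 3 = C % 3
    · exact main A (-B) C (by linarith) (by omega) h2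
    · exact main A (-B) (-C) (by linarith) (by omega) (by omega)

lemma five_sq (s a b c : ℤ) (hs : 0 < s) (h : a + b + c = 3 * s) (hc : a = 0 ∨ b = 0 ∨ c = 0)
    (h1 : 2 * s - a = 0 ∨ 2 * s - b = 0 ∨ 2 * s - c = 0) : a ^ 2 + b ^ 2 + c ^ 2 = 5 * s ^ 2 := by
  have : (a = 0 ∧ b = 2 * s ∧ c = s) ∨ (a = 0 ∧ b = s ∧ c = 2 * s) ∨ (a = 2 * s ∧ b = 0 ∧ c = s) ∨
      (a = s ∧ b = 0 ∧ c = 2 * s) ∨ (a = 2 * s ∧ b = s ∧ c = 0) ∨ (a = s ∧ b = 2 * s ∧ c = 0) := by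
    rcases hc with h2 | h2 | h2 <;> rcases h1 with h3 | h3 | h3 <;> omega
  rcases this with ⟨x, y, z⟩ | ⟨x, y, z⟩ | ⟨x, y, z⟩ | ⟨x, y, z⟩ | ⟨x, y, z⟩ | ⟨x, y, z⟩ <;>
    rw [x, y, z] <;> ring

lemma nonzero_rep (s a b c : ℤ) (hs : 0 < s) (h : a + b + c = 3 * s)
    (hbig : 9 * s ^ 2 < a ^ 2 + b ^ 2 + c ^ 2) :
    ∃ a' b' c' : ℤ, a' + b' + c' = 3 * s ∧ a' ^ 2 + b' ^ 2 + c' ^ 2 = a ^ 2 + b ^ 2 + c ^ 2 ∧
      a' ≠ 0 ∧ b' ≠ 0 ∧ c' ≠ 0 := by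
  by_cases h0 : a = 0 ∨ b = 0 ∨ c = 0
  · have h5 := five_sq s a b c hs h h0
    have h6 := sq_nonneg s
    refine ⟨2 * s - a, 2 * s - b, 2 * s - c, by linarith, ?_, ?_, ?_, ?_⟩
    · have : c = 3 * s - a - b := by linarith
      rw [this]; ring
    · intro h1; have := h5 (Or.inl h1); linarith
    · intro h1; have := h5 (Or.inr (Or.inl h1)); linarith
    · intro h1; have := h5 (Or.inr (Or.inr h1)); linarith
  · push Not at h0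
    exact ⟨a, b, c, h, rfl, h0⟩

lemma nat_rep {n : ℕ} {x y z w : ℤ} (h : x ^ 2 + y ^ 2 + z ^ 2 + 4 * w ^ 2 = n) :
    n = x.natAbs ^ 2 + y.natAbs ^ 2 + z.natAbs ^ 2 + 4 * w.natAbs ^ 2 := by
  have : ((x.natAbs ^ 2 + y.natAbs ^ 2 + z.natAbs ^ 2 + 4 * w.natAbs ^ 2 : ℕ) : ℤ) = n := by
    push_cast; simp only [sq_abs]; exact h
  exact_mod_cast this.symm

lemma big_rep (n : ℕ) (s a b c w : ℤ) (hs : 0 < s) (h : a + b + c = 3 * s)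
    (e : a ^ 2 + b ^ 2 + c ^ 2 + 4 * w ^ 2 = n) (hbig : 9 * s ^ 2 < a ^ 2 + b ^ 2 + c ^ 2) :
    ∃ x y z w : ℕ, n = x ^ 2 + y ^ 2 + z ^ 2 + 4 * w ^ 2 ∧ 0 < x ∧ 0 < y ∧ 0 < z ∧
      s ∣ (x : ℤ) + y - z := by
  obtain ⟨a', b', c', h', e', ha, hb, hc⟩ := nonzero_rep s a b c hs h hbig
  rw [← e'] at e hbig
  clear e' h
  have hmix : ¬ (0 < a' ∧ 0 < b' ∧ 0 < c') := by
    rintro ⟨p1, p2, p3⟩
    have : 9 * s ^ 2 = (a' + b' + c') ^ 2 := by rw [h']; ring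
    have := mul_pos p1 p2; have := mul_pos p1 p3; have := mul_pos p2 p3
    nlinarith
  have main : ∀ a b c : ℤ, a ≠ 0 → b ≠ 0 → c ≠ 0 → a ^ 2 + b ^ 2 + c ^ 2 + 4 * w ^ 2 = n →
      ((a.natAbs : ℤ) + b.natAbs - c.natAbs = 3 * s ∨ (a.natAbs : ℤ) + b.natAbs - c.natAbs = -(3 * s)) →
      ∃ x y z w : ℕ, n = x ^ 2 + y ^ 2 + z ^ 2 + 4 * w ^ 2 ∧ 0 < x ∧ 0 < y ∧ 0 < z ∧
        s ∣ (x : ℤ) + y - z := by
    intro a b c ha hb hc e h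
    refine ⟨_, _, _, _, nat_rep e, Int.natAbs_pos.mpr ha, Int.natAbs_pos.mpr hb,
      Int.natAbs_pos.mpr hc, ?_⟩
    rcases h with h | h <;> rw [h]
    · exact Dvd.intro_left 3 rfl
    · exact dvd_neg.mpr (Dvd.intro_left 3 rfl)
  by_cases h1 : (0 < a' ↔ 0 < b')
  · exact main a' b' c' ha hb hc e (by omega)
  · by_cases h2 : (0 < a' ↔ 0 < c')
    · exact main a' c' b' ha hc hb (by linarith) (by omega)
    · exact main b' c' a' hb hc ha (by linarith) (by omega)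

/-- Pattern for odd moduli: `z = x + y` modulo `m`. -/
theorem pattern_sum (m : ℕ) (hm : m % 2 = 1) : ∃ N : ℕ, ∀ n : ℕ, N ≤ n → n % 2 = 1 →
    ∃ x y z w : ℕ, n = x ^ 2 + y ^ 2 + z ^ 2 + 4 * w ^ 2 ∧ 0 < x ∧ 0 < y ∧ 0 < z ∧
      (m : ℤ) ∣ (x : ℤ) + y - z := by
  refine ⟨(9 * (23 * m) ^ 2) ^ 2 + 9 * (23 * m) ^ 2 + 1, fun n hn hodd => ?_⟩
  have hn' : (9 * (23 * (m : ℤ)) ^ 2) ^ 2 + 9 * (23 * m) ^ 2 + 1 ≤ n := by exact_mod_cast hn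
  have hm0 : (0 : ℤ) < m := by omega
  have hu : (9 * (m : ℤ) ^ 2) % 8 = 1 := by have := sq_par (m : ℤ); omega
  obtain ⟨j, j1, j7, -, g1, g2⟩ := exists_good (3 * n) (9 * (m : ℤ) ^ 2) (by omega) hu
  have s1 : 0 < (m : ℤ) * j := by positivity
  have s2 : 0 < (m : ℤ) * (j + 16) := by positivity
  have b1 : (m : ℤ) * j ≤ 23 * m := by nlinarith
  have b2 : (m : ℤ) * (j + 16) ≤ 23 * m := by nlinarith
  have c1 : ((m : ℤ) * j) ^ 2 ≤ (23 * m) ^ 2 := pow_le_pow_left₀ s1.le b1 2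
  have c2 : ((m : ℤ) * (j + 16)) ^ 2 ≤ (23 * m) ^ 2 := pow_le_pow_left₀ s2.le b2 2
  have hsq : (0 : ℤ) ≤ (9 * (23 * (m : ℤ)) ^ 2) ^ 2 := by positivity
  have hsq' : (0 : ℤ) ≤ (23 * (m : ℤ)) ^ 2 := by positivity
  obtain ⟨a, b, c, w, h, e⟩ := sum_rep n (m * j) (by linarith)
    (by rw [show 9 * ((m : ℤ) * j) ^ 2 = 9 * m ^ 2 * j ^ 2 by ring]; exact g1)
  obtain ⟨a', b', c', w', h', e'⟩ := sum_rep n (m * (j + 16)) (by linarith)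
    (by rw [show 9 * ((m : ℤ) * (j + 16)) ^ 2 = 9 * m ^ 2 * (j + 16) ^ 2 by ring]; exact g2)
  by_cases hb : 9 * ((m : ℤ) * j) ^ 2 < a ^ 2 + b ^ 2 + c ^ 2
  · obtain ⟨x, y, z, w, r, hx, hy, hz, d⟩ := big_rep n _ a b c w s1 h e hb
    exact ⟨x, y, z, w, r, hx, hy, hz, (Dvd.intro j rfl).trans d⟩
  by_cases hb' : 9 * ((m : ℤ) * (j + 16)) ^ 2 < a' ^ 2 + b' ^ 2 + c' ^ 2
  · obtain ⟨x, y, z, w, r, hx, hy, hz, d⟩ := big_rep n _ a' b' c' w' s2 h' e' hb'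
    exact ⟨x, y, z, w, r, hx, hy, hz, (Dvd.intro (j + 16) rfl).trans d⟩
  exfalso
  push Not at hb hb'
  have l1 : 3 * ((m : ℤ) * (j + 16)) ^ 2 ≤ a' ^ 2 + b' ^ 2 + c' ^ 2 := by
    have : 9 * ((m : ℤ) * (j + 16)) ^ 2 = (a' + b' + c') ^ 2 := by rw [h']; ring
    nlinarith [sq_nonneg (a' - b'), sq_nonneg (a' - c'), sq_nonneg (b' - c')]
  have l2 : 9 * ((m : ℤ) * j) ^ 2 < 3 * ((m : ℤ) * (j + 16)) ^ 2 := by
    have : 9 * j ^ 2 < 3 * (j + 16) ^ 2 := by nlinarith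
    have hm2 : (0 : ℤ) < (m : ℤ) ^ 2 := by positivity
    nlinarith
  have := gap (D1 := 2 * w) (D2 := 2 * w') (r1 := a ^ 2 + b ^ 2 + c ^ 2)
    (r2 := a' ^ 2 + b' ^ 2 + c' ^ 2) (R := 9 * (23 * m) ^ 2) (Z := n) (by linarith) (by linarith)
    (by positivity) (by linarith) (by linarith)
  linarith

end Pool.Agent.Lib.MP_f6c7cf_nt
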