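import Mathlib
import Pool.Agent.Lib.MP_f6c7cf_nt.Patterns

/-!
Representations in which two of the four terms of `2^x+2^y+2^z+1` cancel modulo `2^k+1`.
-/

set_option autoImplicit false

namespace Pool.Agent.Lib.MP_f6c7cf_nt

lemma two_pow_even {x : ℕ} (hx : 0 < x) : 2 ^ x % 2 = 0 := by
  obtain ⟨t, rfl⟩ : ∃ t, x = t + 1 := ⟨x - 1, by omega⟩
  rw [pow_succ]; omega

lemma odd_val {x y z : ℕ} (hx : 0 < x) (h : (0 < y ∧ 0 < z) ∨ (y = 0 ∧ z = 0)) :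
    (2 ^ x + 2 ^ y + 2 ^ z + 1) % 2 = 1 := by
  have h1 := two_pow_even hx
  rcases h with ⟨hy, hz⟩ | ⟨rfl, rfl⟩
  · have := two_pow_even hy; have := two_pow_even hz; omega
  · simp only [pow_zero]; omega

/-- The conclusion of the first cancelling pattern. -/
def PatOne (k n : ℕ) : Prop :=
  ∃ x y z w : ℕ, n = x ^ 2 + y ^ 2 + z ^ 2 + 4 * w ^ 2 ∧ (2 ^ x + 2 ^ y + 2 ^ z + 1) % 2 = 1 ∧
    (∃ j, j % 2 = 1 ∧ x = j * k) ∧ (y + z + k) % 2 = 1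

/-- The conclusion of the second cancelling pattern. -/
def PatTwo (k n : ℕ) : Prop :=
  ∃ x y z w : ℕ, n = x ^ 2 + y ^ 2 + z ^ 2 + 4 * w ^ 2 ∧ (2 ^ x + 2 ^ y + 2 ^ z + 1) % 2 = 1 ∧
    (∃ j, j % 2 = 1 ∧ x = y + j * k) ∧ (z + k) % 2 = 1

lemma patOne_of {k n j : ℕ} (hk : 0 < k) (hj : j % 2 = 1) {y z w : ℤ}
    (e : ((j * k : ℕ) : ℤ) ^ 2 + y ^ 2 + z ^ 2 + 4 * w ^ 2 = n)
    (h : (y ≠ 0 ∧ z ≠ 0) ∨ (y = 0 ∧ z = 0)) (hp : (y + z + k) % 2 = 1) : PatOne k n := by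
  have r := nat_rep e
  rw [Int.natAbs_natCast] at r
  refine ⟨_, _, _, _, r, odd_val (Nat.mul_pos (by omega) hk) (by omega), ⟨j, hj, rfl⟩, by omega⟩

lemma patOne_odd (k : ℕ) (hk : k % 2 = 1) (n : ℕ) (hn : 49 * k ^ 2 ≤ n) (hodd : n % 2 = 1) :
    PatOne k n := by
  have hn' : 49 * (k : ℤ) ^ 2 ≤ n := by exact_mod_cast hn
  have hk0 : 0 < k := by omega
  have hk8 : (k : ℤ) ^ 2 % 8 = 1 := by have := sq_par (k : ℤ); omega
  have hsq : (0 : ℤ) ≤ (k : ℤ) ^ 2 := by positivity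
  by_cases h3 : n % 4 = 3
  · obtain ⟨A, B, C, e, a, b, c⟩ := rep_two (n - (k : ℤ) ^ 2) (by linarith) (by omega)
    obtain ⟨w, rfl⟩ : ∃ w, A = 2 * w := ⟨A / 2, by omega⟩
    exact patOne_of (j := 1) (y := B) (z := C) (w := w) hk0 rfl (by push_cast; linarith)
      (by omega) (by omega)
  · obtain ⟨j, j1, j7, jo, g, -⟩ := exists_good n ((k : ℤ) ^ 2) (by omega) hk8
    obtain ⟨j, rfl⟩ := Int.eq_ofNat_of_zero_le (show 0 ≤ j by omega)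
    have hj8 : (j : ℤ) ^ 2 % 8 = 1 := by have := sq_par (j : ℤ); omega
    have hj49 : (j : ℤ) ^ 2 ≤ 49 := by nlinarith
    have h8 : ((k : ℤ) ^ 2 * (j : ℤ) ^ 2) % 8 = 1 := by rw [Int.mul_emod, hk8, hj8]; rfl
    obtain ⟨A, B, C, e⟩ := rep_four _ (by nlinarith) g (by omega)
    have main : ∀ A B C : ℤ, 4 * (A ^ 2 + B ^ 2 + C ^ 2) = n - (k : ℤ) ^ 2 * (j : ℤ) ^ 2 →
        ((A ≠ 0 ∧ B ≠ 0) ∨ (A = 0 ∧ B = 0)) → PatOne k n := by
      intro A B C e h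
      exact patOne_of (j := j) (y := 2 * A) (z := 2 * B) (w := C) hk0 (by omega)
        (by push_cast; linarith) (by omega) (by omega)
    by_cases h1 : (A = 0 ↔ B = 0)
    · exact main A B C e (by tauto)
    · by_cases h2 : (A = 0 ↔ C = 0)
      · exact main A C B (by linarith) (by tauto)
      · exact main B C A (by linarith) (by tauto)

lemma patOne_even (k : ℕ) (hk0 : 0 < k) (hk : k % 2 = 0) (n : ℕ)
    (hn : (9 * k ^ 2) ^ 2 + 9 * k ^ 2 + 1 ≤ n) (h1 : n % 4 = 1) : PatOne k n := by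
  have hn' : (9 * (k : ℤ) ^ 2) ^ 2 + 9 * (k : ℤ) ^ 2 + 1 ≤ n := by exact_mod_cast hn
  have hk4 : (k : ℤ) ^ 2 % 4 = 0 := by have := sq_par (k : ℤ); omega
  have hsq : (0 : ℤ) < (k : ℤ) ^ 2 := by positivity
  have hsq2 : (0 : ℤ) ≤ (9 * (k : ℤ) ^ 2) ^ 2 := by positivity
  have step : ∀ j : ℕ, j % 2 = 1 → j ≤ 3 → PatOne k n ∨ ∃ A : ℤ, A ^ 2 + (j : ℤ) ^ 2 * k ^ 2 = n := by
    intro j hj hj3
    have hj9 : (j : ℤ) ^ 2 ≤ 9 := by
      have : (j : ℤ) ≤ 3 := by omega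
      nlinarith
    have h4 : ((j : ℤ) ^ 2 * (k : ℤ) ^ 2) % 4 = 0 := by rw [Int.mul_emod, hk4]; simp
    obtain ⟨A, B, C, e, a, b, c⟩ := rep_one (n - (j : ℤ) ^ 2 * k ^ 2) (by nlinarith) (by omega)
    by_cases hB : B = 0
    · by_cases hC : C = 0
      · right; exact ⟨A, by rw [hB, hC] at e; linarith⟩
      · left
        obtain ⟨w, rfl⟩ : ∃ w, B = 2 * w := ⟨B / 2, by omega⟩
        exact patOne_of (j := j) (y := A) (z := C) (w := w) hk0 hj (by push_cast; linarith)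
          (by omega) (by omega)
    · left
      obtain ⟨w, rfl⟩ : ∃ w, C = 2 * w := ⟨C / 2, by omega⟩
      exact patOne_of (j := j) (y := A) (z := B) (w := w) hk0 hj (by push_cast; linarith)
        (by omega) (by omega)
  rcases step 1 rfl (by norm_num) with h | ⟨A, hA⟩
  · exact h
  rcases step 3 rfl (by norm_num) with h | ⟨A', hA'⟩
  · exact h
  exfalso
  push_cast at hA hA'
  have := gap (R := 9 * (k : ℤ) ^ 2) hA hA' (by positivity) (by linarith) (by linarith)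
  linarith

lemma patTwo_of {k n j : ℕ} (hk : k % 2 = 0) (hj : j % 2 = 1) (h3 : n % 4 = 3) {A B C : ℤ}
    (e : A ^ 2 + B ^ 2 + C ^ 2 = 2 * n - ((j * k : ℕ) : ℤ) ^ 2) (hA : A % 2 = 0)
    (hbig : ((j * k : ℕ) : ℤ) ≤ |A|) : PatTwo k n := by
  have hκ : ((j * k : ℕ) : ℤ) % 2 = 0 := by
    push_cast; rw [Int.mul_emod, show (k : ℤ) % 2 = 0 by omega]; simp
  set κ : ℤ := ((j * k : ℕ) : ℤ) with hκd
  have pA := sq_par A; have pB := sq_par B; have pC := sq_par C; have pκ := sq_par κ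
  have hB : B % 2 = 1 := by omega
  have hC : C % 2 = 1 := by omega
  have hAa : |A| % 2 = 0 := by rcases abs_cases A with h | h <;> omega
  obtain ⟨y, hy⟩ : ∃ y, |A| - κ = 2 * y := ⟨(|A| - κ) / 2, by omega⟩
  have hsq : |A| ^ 2 = A ^ 2 := sq_abs A
  have main : ∀ B C : ℤ, A ^ 2 + B ^ 2 + C ^ 2 = 2 * n - κ ^ 2 → (B - C) % 4 = 0 → B % 2 = 1 →
      PatTwo k n := by
    intro B C e h hB
    obtain ⟨w, hw⟩ : ∃ w, B - C = 4 * w := ⟨(B - C) / 4, by omega⟩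
    have eA : |A| = 2 * y + κ := by linarith
    have eC : C = B - 4 * w := by linarith
    have e2 : (y + κ) ^ 2 + y ^ 2 + (B - 2 * w) ^ 2 + 4 * w ^ 2 = n := by
      rw [← hsq, eA, eC] at e; nlinarith [e]
    have r := nat_rep e2
    have p1 := sq_par (y + κ); have p2 := sq_par y; have p3 := sq_par (B - 2 * w)
    have hy1 : y % 2 = 1 := by omega
    refine ⟨_, _, _, _, r, odd_val (by omega) (Or.inl ⟨by omega, by omega⟩), ⟨j, hj, by omega⟩,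
      by omega⟩
  by_cases h : (B - C) % 4 = 0
  · exact main B C e h hB
  · exact main B (-C) (by rw [neg_sq]; exact e) (by omega) hB

lemma patTwo_step {k n j T : ℕ} (hk0 : 0 < k) (hk : k % 2 = 0) (hj : j % 2 = 1) (h3 : n % 4 = 3)
    (hT : T.Prime) (hT3 : T % 4 = 3) (lam : ℤ)
    (hl : (T : ℤ) ∣ 2 * n - ((j * k : ℕ) : ℤ) ^ 2 + lam ^ 2) (hl0 : ¬ (T : ℤ) ∣ lam)
    (hn : ((j * k : ℕ) : ℤ) ^ 2 ≤ 2 * n) :
    PatTwo k n ∨ ∃ ρ : ℕ, 1 ≤ ρ ∧ ρ ≤ T ^ 2 ∧ ∃ D r : ℤ, D ^ 2 + r = 2 * n * ρ ∧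
      ((j * k : ℕ) : ℤ) ^ 2 ≤ r ∧ r ≤ 6 * (T : ℤ) ^ 2 * ((j * k : ℕ) : ℤ) ^ 2 := by
  have hκ : ((j * k : ℕ) : ℤ) % 2 = 0 := by
    push_cast; rw [Int.mul_emod, show (k : ℤ) % 2 = 0 by omega]; simp
  have hκ0 : (0 : ℤ) < ((j * k : ℕ) : ℤ) := by
    have : 0 < j * k := Nat.mul_pos (by omega) hk0
    exact_mod_cast this
  have pκ := sq_par ((j * k : ℕ) : ℤ)
  obtain ⟨A, B, C, e, a, -, -⟩ := rep_two (2 * n - ((j * k : ℕ) : ℤ) ^ 2) (by linarith) (by omega)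
  by_cases hA : ((j * k : ℕ) : ℤ) ≤ |A|
  · exact Or.inl (patTwo_of hk hj h3 e a hA)
  obtain ⟨A', B', C', r1, r2, r3, e', hr, hs, hp, hpar⟩ := rotate T hT hT3 A B C lam (e ▸ hl) hl0
  by_cases hA' : ((j * k : ℕ) : ℤ) ≤ |A'|
  · exact Or.inl (patTwo_of hk hj h3 (e'.trans e) (by omega) hA')
  right
  set κ : ℤ := ((j * k : ℕ) : ℤ)
  push Not at hA hA'
  have hT0 : (0 : ℤ) < T := by exact_mod_cast hT.pos
  obtain ⟨ρ, hρ⟩ := Int.eq_ofNat_of_zero_le hp.le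
  have hρT : (ρ : ℤ) ≤ (T : ℤ) ^ 2 := by nlinarith [sq_nonneg r1]
  have hρ1 : (1 : ℤ) ≤ ρ := by omega
  have a2 : A ^ 2 ≤ κ ^ 2 := by rw [← sq_abs A]; exact pow_le_pow_left₀ (abs_nonneg _) hA.le 2
  have r1T : |r1| ≤ T := by
    apply abs_le_of_sq_le_sq _ hT0.le
    nlinarith [sq_nonneg r2, sq_nonneg r3]
  have hE : |T * A' - r1 * A| ≤ 2 * (T * κ) := by
    have h1 : |(T : ℤ) * A'| ≤ T * κ := by
      rw [abs_mul, abs_of_pos hT0]; exact mul_le_mul_of_nonneg_left hA'.le hT0.le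
    have h2 : |r1 * A| ≤ T * κ := by
      rw [abs_mul]; exact mul_le_mul r1T hA.le (abs_nonneg _) hT0.le
    have := abs_sub (T * A') (r1 * A)
    linarith
  have hE2 : (T * A' - r1 * A) ^ 2 ≤ (2 * (T * κ)) ^ 2 := by
    rw [← sq_abs]; exact pow_le_pow_left₀ (abs_nonneg _) hE 2
  refine ⟨ρ, by omega, by exact_mod_cast hρT, r3 * B - r2 * C,
    ρ * κ ^ 2 + ρ * A ^ 2 + (T * A' - r1 * A) ^ 2, ?_, ?_, ?_⟩
  · have e1 : T * A' - r1 * A = r2 * B + r3 * C := by linarith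
    have e2 : (2 * n : ℤ) = A ^ 2 + B ^ 2 + C ^ 2 + κ ^ 2 := by linarith
    rw [e1, e2, ← hρ]; ring
  · have h1 : 1 * κ ^ 2 ≤ ρ * κ ^ 2 := mul_le_mul_of_nonneg_right hρ1 (by positivity)
    have h2 : (0 : ℤ) ≤ ρ * A ^ 2 := by positivity
    have h4 := sq_nonneg (T * A' - r1 * A)
    linarith
  · have h1 : ρ * κ ^ 2 ≤ (T : ℤ) ^ 2 * κ ^ 2 := mul_le_mul_of_nonneg_right hρT (by positivity)
    have h2 : ρ * A ^ 2 ≤ (T : ℤ) ^ 2 * κ ^ 2 := mul_le_mul hρT a2 (by positivity) (by positivity)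
    have h4 : (2 * (T * κ)) ^ 2 = 4 * ((T : ℤ) ^ 2 * κ ^ 2) := by ring
    have h5 : 6 * (T : ℤ) ^ 2 * κ ^ 2 = 6 * ((T : ℤ) ^ 2 * κ ^ 2) := by ring
    linarith

lemma exists_split {T k : ℕ} (hT : T.Prime) (hk : k < T) (hk0 : 0 < k) (h3 : 3 < T) (n : ℕ) :
    ∃ (j0 : ℕ) (lam : ℤ), ¬ (T : ℤ) ∣ lam ∧ ∀ j : ℕ, j ≡ j0 [MOD T] →
      (T : ℤ) ∣ 2 * n - ((j * k : ℕ) : ℤ) ^ 2 + lam ^ 2 := by
  have := Fact.mk hT
  have hkz : (k : ZMod T) ≠ 0 := by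
    rw [Ne, ZMod.natCast_eq_zero_iff]; exact Nat.not_dvd_of_pos_of_lt hk0 hk
  have h2 : (2 : ZMod T) ≠ 0 := by
    have : ((2 : ℕ) : ZMod T) ≠ 0 := by
      rw [Ne, ZMod.natCast_eq_zero_iff]; exact Nat.not_dvd_of_pos_of_lt (by norm_num) (by omega)
    exact_mod_cast this
  have h3' : (3 : ZMod T) ≠ 0 := by
    have : ((3 : ℕ) : ZMod T) ≠ 0 := by
      rw [Ne, ZMod.natCast_eq_zero_iff]; exact Nat.not_dvd_of_pos_of_lt (by norm_num) (by omega)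
    exact_mod_cast this
  obtain ⟨a, l, hl, hal⟩ : ∃ a l : ZMod T, l ≠ 0 ∧ a ^ 2 - l ^ 2 = 2 * n := by
    by_cases h : (2 * n - 1 : ZMod T) = 0
    · refine ⟨(2 + n) / 2, (n - 2) / 2, ?_, by field_simp; ring⟩
      refine div_ne_zero ?_ h2
      intro h'
      apply h3'
      linear_combination h - 2 * h'
    · exact ⟨(1 + 2 * n) / 2, (2 * n - 1) / 2, div_ne_zero h h2, by field_simp; ring⟩
  refine ⟨(a / k).val, (l.val : ℤ), ?_, fun j hj => ?_⟩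
  · rw [← ZMod.intCast_zmod_eq_zero_iff_dvd]; simpa using hl
  · rw [← ZMod.intCast_zmod_eq_zero_iff_dvd]
    have hj' : (j : ZMod T) = a / k := by
      rw [(ZMod.natCast_eq_natCast_iff _ _ _).mpr hj]; simp
    push_cast
    rw [hj', div_mul_cancel₀ _ hkz]
    simp only [ZMod.natCast_val, ZMod.cast_id', id_eq]
    linear_combination -hal

lemma exists_odd_modEq (T j0 L : ℕ) (hT : T % 2 = 1) :
    ∃ j, j % 2 = 1 ∧ j ≡ j0 [MOD T] ∧ L ≤ j ∧ j ≤ L + 2 * T := by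
  have hT0 : 0 < T := by omega
  have h1 : L + (j0 + (T - 1) * L) % T ≡ j0 [MOD T] := by
    have a : L + (j0 + (T - 1) * L) % T ≡ L + (j0 + (T - 1) * L) [MOD T] :=
      (Nat.mod_modEq _ _).add_left L
    have b : L + (j0 + (T - 1) * L) = j0 + T * L := by
      obtain ⟨s, rfl⟩ : ∃ s, T = s + 1 := ⟨T - 1, by omega⟩
      simp; ring
    rw [b] at a
    exact a.trans (by simp [Nat.ModEq])
  have h2 := Nat.mod_lt (j0 + (T - 1) * L) hT0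
  set c := (j0 + (T - 1) * L) % T
  by_cases h : (L + c) % 2 = 1
  · exact ⟨L + c, h, h1, by omega, by omega⟩
  · exact ⟨L + c + T, by omega, (by simp [Nat.ModEq] : L + c + T ≡ L + c [MOD T]).trans h1,
      by omega, by omega⟩

lemma patTwo_even (k : ℕ) (hk0 : 0 < k) (hk : k % 2 = 0) :
    ∃ N : ℕ, ∀ n : ℕ, N ≤ n → n % 4 = 3 → PatTwo k n := by
  obtain ⟨T, hTk, hT, hT3⟩ := Nat.forall_exists_prime_gt_and_modEq (k + 3) (q := 4) (a := 3)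
    (by norm_num) (by norm_num)
  have hT3' : T % 4 = 3 := hT3
  set K : ℕ := 2 * (6 * T) ^ (T ^ 2 + 1) * k with hK
  set R : ℕ := 6 * T ^ 2 * K ^ 2 with hR
  refine ⟨R ^ 2 + R + K ^ 2 + 1, fun n hn h3 => ?_⟩
  by_contra hno
  obtain ⟨j0, lam, hl0, hl⟩ := exists_split (T := T) (k := k) hT (by omega) hk0 (by omega) n
  have hL : ∀ i : ℕ, 2 * T ≤ (6 * T) ^ (i + 1) := fun i =>
    (by omega : 2 * T ≤ 6 * T).trans (Nat.le_self_pow (by omega) _)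
  have hstep : ∀ i : ℕ, i ≤ T ^ 2 → ∃ ρ : ℕ, 1 ≤ ρ ∧ ρ ≤ T ^ 2 ∧ ∃ D r : ℤ, D ^ 2 + r = 2 * n * ρ ∧
      (((6 * T) ^ (i + 1) * k : ℕ) : ℤ) ^ 2 ≤ r ∧ r < (((6 * T) ^ (i + 2) * k : ℕ) : ℤ) ^ 2 ∧
      r ≤ R := by
    intro i hi
    obtain ⟨j, jo, jm, j1, j2⟩ := exists_odd_modEq T j0 ((6 * T) ^ (i + 1)) (by omega)
    have j3 : j ≤ 2 * (6 * T) ^ (i + 1) := by have := hL i; omega
    have j4 : j * k ≤ K := by
      rw [hK]
      refine Nat.mul_le_mul_right k (j3.trans (Nat.mul_le_mul_left 2 ?_))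
      exact Nat.pow_le_pow_right (by omega) (by omega)
    have j5 : (j * k) ^ 2 ≤ K ^ 2 := Nat.pow_le_pow_left j4 2
    rcases patTwo_step hk0 hk jo h3 hT hT3' lam (hl j jm) hl0
      (by exact_mod_cast (by omega : (j * k) ^ 2 ≤ 2 * n)) with h | ⟨ρ, a, b, D, r, c, d, e⟩
    · exact absurd h hno
    refine ⟨ρ, a, b, D, r, c, le_trans ?_ d, lt_of_le_of_lt e ?_, e.trans ?_⟩
    · exact_mod_cast Nat.pow_le_pow_left (Nat.mul_le_mul_right k j1) 2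
    · have hT0 := hT.pos
      have p : 0 < T * ((6 * T) ^ (i + 1) * k) := by positivity
      have q1 : (j * k) ^ 2 ≤ (2 * (6 * T) ^ (i + 1) * k) ^ 2 :=
        Nat.pow_le_pow_left (Nat.mul_le_mul_right k j3) 2
      have q2 : 6 * T ^ 2 * (j * k) ^ 2 < ((6 * T) ^ (i + 2) * k) ^ 2 := by
        calc 6 * T ^ 2 * (j * k) ^ 2 ≤ 6 * T ^ 2 * (2 * (6 * T) ^ (i + 1) * k) ^ 2 :=
              Nat.mul_le_mul_left _ q1
          _ = 24 * (T * ((6 * T) ^ (i + 1) * k)) ^ 2 := by ring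
          _ < 36 * (T * ((6 * T) ^ (i + 1) * k)) ^ 2 := by
              have := pow_pos p 2
              omega
          _ = _ := by ring
      exact_mod_cast q2
    · rw [hR]; exact_mod_cast Nat.mul_le_mul_left (6 * T ^ 2) j5
  choose! ρ hρ1 hρ2 D r hD hr1 hr2 hr3 using hstep
  have contra : ∀ i i' : ℕ, i < i' → i' ≤ T ^ 2 → ρ i = ρ i' → False := by
    intro i i' hlt hi' heq
    have hi : i ≤ T ^ 2 := by omega
    have m1 : (((6 * T) ^ (i + 2) * k : ℕ) : ℤ) ^ 2 ≤ (((6 * T) ^ (i' + 1) * k : ℕ) : ℤ) ^ 2 := by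
      exact_mod_cast Nat.pow_le_pow_left (Nat.mul_le_mul_right k
        (Nat.pow_le_pow_right (by omega) (by omega))) 2
    have g := gap (hD i hi) (heq ▸ hD i' hi') (le_trans (by positivity) (hr1 i hi))
      (lt_of_lt_of_le (hr2 i hi) (m1.trans (hr1 i' hi'))) (hr3 i' hi')
    have g2 : 2 * n * ρ i ≤ R ^ 2 + R := by exact_mod_cast g
    have g3 : 2 * n * 1 ≤ 2 * n * ρ i := Nat.mul_le_mul_left _ (hρ1 i hi)
    omega
  obtain ⟨i, hi, i', hi', hne, heq⟩ := Finset.exists_ne_map_eq_of_card_lt_of_maps_to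
    (s := Finset.range (T ^ 2 + 1)) (t := Finset.Icc 1 (T ^ 2)) (f := ρ) (by simp)
    (fun i hi => by
      have : i ≤ T ^ 2 := by simpa [Nat.lt_succ_iff] using hi
      simpa using ⟨hρ1 i this, hρ2 i this⟩)
  simp only [Finset.mem_range] at hi hi'
  rcases lt_or_gt_of_ne hne with h | h
  · exact contra i i' h (by omega) heq
  · exact contra i' i h (by omega) heq.symm

/-- For every `k > 0` and every large odd `n` one of the two cancelling patterns occurs. -/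
theorem pattern_pair (k : ℕ) (hk0 : 0 < k) :
    ∃ N : ℕ, ∀ n : ℕ, N ≤ n → n % 2 = 1 → PatOne k n ∨ PatTwo k n := by
  by_cases hk : k % 2 = 1
  · exact ⟨49 * k ^ 2, fun n hn ho => Or.inl (patOne_odd k hk n hn ho)⟩
  · obtain ⟨N, hN⟩ := patTwo_even k hk0 (by omega)
    refine ⟨N + ((9 * k ^ 2) ^ 2 + 9 * k ^ 2 + 1), fun n hn ho => ?_⟩
    by_cases h1 : n % 4 = 1
    · exact Or.inl (patOne_even k hk0 (by omega) n (by omega) h1)
    · exact Or.inr (hN n (by omega) (by omega))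

end Pool.Agent.Lib.MP_f6c7cf_nt
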