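import Mathlib
import Pool.Agent.Lib.MP_f6c7cf_nt.Pairs

/-!
The patterns force `2^x+2^y+2^z+1` to be nonzero modulo the relevant primes.
-/

set_option autoImplicit false

namespace Pool.Agent.Lib.MP_f6c7cf_nt

lemma two_ne_zero' {q : ℕ} (hq : q.Prime) (h2 : q ≠ 2) : (2 : ZMod q) ≠ 0 := by
  have : ((2 : ℕ) : ZMod q) ≠ 0 := by
    rw [Ne, ZMod.natCast_eq_zero_iff]
    intro h
    exact h2 ((Nat.prime_dvd_prime_iff_eq hq Nat.prime_two).mp h)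
  exact_mod_cast this

lemma dvd_val_iff (q x y z : ℕ) : q ∣ 2 ^ x + 2 ^ y + 2 ^ z + 1 ↔
    (2 : ZMod q) ^ x + 2 ^ y + 2 ^ z + 1 = 0 := by
  rw [← ZMod.natCast_eq_zero_iff]; push_cast; rfl

section
variable {R : Type*} [Field R] {g : R}

lemma par_of_neg (h2 : (2 : R) ≠ 0) {k t : ℕ} (hk : g ^ k = -1) (ht : g ^ t = -1) :
    (t + k) % 2 = 0 := by
  have e : (-1 : R) ^ t = (-1) ^ k := by rw [← hk, ← pow_mul, mul_comm, pow_mul, ht, hk]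
  by_contra h
  have h1 : (-1 : R) ^ (t + k) = -1 := Odd.neg_one_pow (Nat.odd_iff.mpr (by omega))
  rw [pow_add, e, ← pow_add, Even.neg_one_pow ⟨k, rfl⟩] at h1
  apply h2; linear_combination h1

lemma sum_ne_zero (h2 : (2 : R) ≠ 0) (hg : g ≠ 0) {k y z : ℕ} (hk : g ^ k = -1)
    (hp : (y + z + k) % 2 = 1) : g ^ y + g ^ z ≠ 0 := by
  have main : ∀ y z : ℕ, y ≤ z → (y + z + k) % 2 = 1 → g ^ y + g ^ z ≠ 0 := by
    intro y z hyz hp h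
    obtain ⟨d, rfl⟩ := Nat.exists_eq_add_of_le hyz
    have h1 : g ^ y * (1 + g ^ d) = 0 := by rw [← h]; ring
    rcases mul_eq_zero.mp h1 with h3 | h3
    · exact pow_ne_zero y hg h3
    · have := par_of_neg h2 hk (show g ^ d = -1 by linear_combination h3)
      omega
  rcases le_total y z with h | h
  · exact main y z h hp
  · rw [add_comm]; exact main z y h (by omega)

lemma pow_odd_mul {k j : ℕ} (hk : g ^ k = -1) (hj : j % 2 = 1) : g ^ (j * k) = -1 := by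
  rw [mul_comm, pow_mul, hk]; exact Odd.neg_one_pow (Nat.odd_iff.mpr hj)

lemma one_add_ne_zero (h2 : (2 : R) ≠ 0) {m : ℕ} (hm : m % 2 = 1) (h : g ^ m = 1) (x : ℕ) :
    1 + g ^ x ≠ 0 := by
  intro h0
  have h1 : g ^ x = -1 := by linear_combination h0
  have h3 := pow_odd_mul h1 hm
  rw [pow_mul, h, one_pow] at h3
  apply h2; linear_combination h3

end

lemma not_three_dvd {n x y z w : ℕ} (hn : n % 2 = 1) (e : n = x ^ 2 + y ^ 2 + z ^ 2 + 4 * w ^ 2) :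
    ¬ 3 ∣ 2 ^ x + 2 ^ y + 2 ^ z + 1 := by
  have h : ∀ t : ℕ, (t ^ 2 % 2 = 0 ∧ 2 ^ t % 3 = 1) ∨ (t ^ 2 % 2 = 1 ∧ 2 ^ t % 3 = 2) := by
    intro t
    rcases Nat.even_or_odd' t with ⟨s, rfl | rfl⟩
    · left
      refine ⟨?_, ?_⟩
      · have : (2 * s) ^ 2 = 2 * (2 * s ^ 2) := by ring
        omega
      · rw [pow_mul, Nat.pow_mod]; simp
    · right
      refine ⟨?_, ?_⟩
      · have : (2 * s + 1) ^ 2 = 2 * (2 * s ^ 2 + 2 * s) + 1 := by ring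
        omega
      · rw [pow_succ, pow_mul, Nat.mul_mod, Nat.pow_mod]; simp
  have hx := h x; have hy := h y; have hz := h z
  omega

/-- Moduli `2^m - 1` with `m` odd. -/
theorem avoid_minus (m : ℕ) (hm : m % 2 = 1) : ∃ N : ℕ, ∀ n : ℕ, N ≤ n → n % 2 = 1 →
    ∃ x y z w : ℕ, n = x ^ 2 + y ^ 2 + z ^ 2 + 4 * w ^ 2 ∧ (2 ^ x + 2 ^ y + 2 ^ z + 1) % 2 = 1 ∧
      ∀ q : ℕ, q.Prime → q ≠ 2 → (2 : ZMod q) ^ m = 1 → ¬ q ∣ 2 ^ x + 2 ^ y + 2 ^ z + 1 := by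
  obtain ⟨N, hN⟩ := pattern_sum m hm
  refine ⟨N, fun n hn ho => ?_⟩
  obtain ⟨x, y, z, w, e, hx, hy, hz, d⟩ := hN n hn ho
  refine ⟨x, y, z, w, e, odd_val hx (Or.inl ⟨hy, hz⟩), fun q hq h2 hm1 => ?_⟩
  have := Fact.mk hq
  rw [dvd_val_iff]
  have hmod : z ≡ x + y [MOD m] := by
    rw [Nat.modEq_iff_dvd]; push_cast; exact d
  have hz' : (2 : ZMod q) ^ z = 2 ^ (x + y) := by
    rw [pow_eq_pow_mod z hm1, pow_eq_pow_mod (x + y) hm1, hmod]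
  intro h
  have h1 : (1 + (2 : ZMod q) ^ x) * (1 + 2 ^ y) = 0 := by rw [← h, hz']; ring
  have h3 := two_ne_zero' hq h2
  exact mul_ne_zero (one_add_ne_zero h3 hm hm1 x) (one_add_ne_zero h3 hm hm1 y) h1

/-- Moduli `2^k + 1`. -/
theorem avoid_plus (k : ℕ) (hk : 0 < k) : ∃ N : ℕ, ∀ n : ℕ, N ≤ n → n % 2 = 1 →
    ∃ x y z w : ℕ, n = x ^ 2 + y ^ 2 + z ^ 2 + 4 * w ^ 2 ∧ (2 ^ x + 2 ^ y + 2 ^ z + 1) % 2 = 1 ∧
      ∀ q : ℕ, q.Prime → q ≠ 2 → (2 : ZMod q) ^ k = -1 → ¬ q ∣ 2 ^ x + 2 ^ y + 2 ^ z + 1 := by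
  obtain ⟨N, hN⟩ := pattern_pair k hk
  refine ⟨N, fun n hn ho => ?_⟩
  rcases hN n hn ho with ⟨x, y, z, w, e, o, ⟨j, hj, hx⟩, p⟩ | ⟨x, y, z, w, e, o, ⟨j, hj, hx⟩, p⟩
  · refine ⟨x, y, z, w, e, o, fun q hq h2 hk1 => ?_⟩
    have := Fact.mk hq
    have h3 := two_ne_zero' hq h2
    rw [dvd_val_iff, hx, pow_odd_mul hk1 hj]
    intro h
    exact sum_ne_zero h3 h3 hk1 p (by linear_combination h)
  · refine ⟨x, y, z, w, e, o, fun q hq h2 hk1 => ?_⟩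
    have := Fact.mk hq
    have h3 := two_ne_zero' hq h2
    rw [dvd_val_iff, hx, pow_add, pow_odd_mul hk1 hj]
    intro h
    exact sum_ne_zero (y := 0) (z := z) h3 h3 hk1 (by omega) (by linear_combination h)

end Pool.Agent.Lib.MP_f6c7cf_nt
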