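import Mathlib
import Pool.Agent.Lib.MP_f6c7cf_nt.Modular

/-!
No single prime divides all values `2^x+2^y+2^z+1` attached to a given odd `n`.
-/

set_option autoImplicit false

namespace Pool.Agent.Lib.MP_f6c7cf_nt

/-- Some representation of `n` has value not divisible by `q`. -/
def Avoid (n q : ℕ) : Prop :=
  ∃ x y z w : ℕ, n = x ^ 2 + y ^ 2 + z ^ 2 + 4 * w ^ 2 ∧ ¬ q ∣ 2 ^ x + 2 ^ y + 2 ^ z + 1

lemma of_pair {n q : ℕ} (x y z w x' y' z' w' : ℕ) (e : n = x ^ 2 + y ^ 2 + z ^ 2 + 4 * w ^ 2)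
    (e' : n = x' ^ 2 + y' ^ 2 + z' ^ 2 + 4 * w' ^ 2)
    (h : Nat.Coprime (2 ^ x + 2 ^ y + 2 ^ z + 1) (2 ^ x' + 2 ^ y' + 2 ^ z' + 1)) (hq : q.Prime) :
    Avoid n q := by
  by_cases h1 : q ∣ 2 ^ x + 2 ^ y + 2 ^ z + 1
  · refine ⟨x', y', z', w', e', fun h2 => ?_⟩
    exact hq.one_lt.ne' (Nat.eq_one_of_dvd_coprimes h h1 h2)
  · exact ⟨x, y, z, w, e, h1⟩

lemma small_case {k q : ℕ} (hk : k < 50) (hq : q.Prime)
    (hex : 4 * k + 3 ∉ ({1, 3, 7, 11, 15, 23} : Finset ℕ)) : Avoid (4 * k + 3) q := by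
  interval_cases k
  · exact absurd (by simp) hex
  · exact absurd (by simp) hex
  · exact absurd (by simp) hex
  · exact absurd (by simp) hex
  · exact of_pair 1 1 1 2 1 3 3 0 (by norm_num) (by norm_num) (by norm_num) hq
  · exact absurd (by simp) hex
  · exact of_pair 1 1 3 2 3 3 3 0 (by norm_num) (by norm_num) (by norm_num) hq
  · exact of_pair 3 3 3 1 1 1 5 1 (by norm_num) (by norm_num) (by norm_num) hq
  · exact of_pair 1 3 3 2 1 3 5 0 (by norm_num) (by norm_num) (by norm_num) hq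
  · exact of_pair 1 1 1 3 1 3 5 1 (by norm_num) (by norm_num) (by norm_num) hq
  · exact of_pair 3 3 3 2 1 1 5 2 (by norm_num) (by norm_num) (by norm_num) hq
  · exact of_pair 1 1 3 3 3 3 5 1 (by norm_num) (by norm_num) (by norm_num) hq
  · exact of_pair 1 3 5 2 1 5 5 0 (by norm_num) (by norm_num) (by norm_num) hq
  · exact of_pair 1 3 3 3 1 5 5 1 (by norm_num) (by norm_num) (by norm_num) hq
  · exact of_pair 3 3 5 2 3 5 5 0 (by norm_num) (by norm_num) (by norm_num) hq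
  · exact of_pair 3 3 3 3 1 1 5 3 (by norm_num) (by norm_num) (by norm_num) hq
  · exact of_pair 1 1 1 4 1 5 5 2 (by norm_num) (by norm_num) (by norm_num) hq
  · exact of_pair 1 3 5 3 3 3 7 1 (by norm_num) (by norm_num) (by norm_num) hq
  · exact of_pair 1 1 3 4 3 5 5 2 (by norm_num) (by norm_num) (by norm_num) hq
  · exact of_pair 3 3 5 3 5 5 5 1 (by norm_num) (by norm_num) (by norm_num) hq
  · exact of_pair 1 3 3 4 3 3 7 2 (by norm_num) (by norm_num) (by norm_num) hq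
  · exact of_pair 1 5 5 3 1 1 7 3 (by norm_num) (by norm_num) (by norm_num) hq
  · exact of_pair 3 3 3 4 1 1 5 4 (by norm_num) (by norm_num) (by norm_num) hq
  · exact of_pair 3 5 5 3 1 3 7 3 (by norm_num) (by norm_num) (by norm_num) hq
  · exact of_pair 1 3 5 4 3 5 7 2 (by norm_num) (by norm_num) (by norm_num) hq
  · exact of_pair 1 1 1 5 3 3 7 3 (by norm_num) (by norm_num) (by norm_num) hq
  · exact of_pair 3 3 5 4 3 7 7 0 (by norm_num) (by norm_num) (by norm_num) hq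
  · exact of_pair 1 1 3 5 5 5 5 3 (by norm_num) (by norm_num) (by norm_num) hq
  · exact of_pair 1 5 5 4 1 1 7 4 (by norm_num) (by norm_num) (by norm_num) hq
  · exact of_pair 1 3 3 5 3 5 7 3 (by norm_num) (by norm_num) (by norm_num) hq
  · exact of_pair 3 5 5 4 1 3 7 4 (by norm_num) (by norm_num) (by norm_num) hq
  · exact of_pair 3 3 3 5 1 1 5 5 (by norm_num) (by norm_num) (by norm_num) hq
  · exact of_pair 3 3 7 4 3 5 9 2 (by norm_num) (by norm_num) (by norm_num) hq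
  · exact of_pair 1 3 5 5 5 5 7 3 (by norm_num) (by norm_num) (by norm_num) hq
  · exact of_pair 5 5 5 4 1 5 7 4 (by norm_num) (by norm_num) (by norm_num) hq
  · exact of_pair 3 3 5 5 3 7 7 3 (by norm_num) (by norm_num) (by norm_num) hq
  · exact of_pair 1 1 1 6 3 5 7 4 (by norm_num) (by norm_num) (by norm_num) hq
  · exact of_pair 1 5 5 5 1 1 7 5 (by norm_num) (by norm_num) (by norm_num) hq
  · exact of_pair 1 1 3 6 1 3 9 4 (by norm_num) (by norm_num) (by norm_num) hq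
  · exact of_pair 3 5 5 5 1 3 7 5 (by norm_num) (by norm_num) (by norm_num) hq
  · exact of_pair 1 3 3 6 5 5 7 4 (by norm_num) (by norm_num) (by norm_num) hq
  · exact of_pair 3 3 7 5 5 5 9 3 (by norm_num) (by norm_num) (by norm_num) hq
  · exact of_pair 3 3 3 6 1 1 5 6 (by norm_num) (by norm_num) (by norm_num) hq
  · exact of_pair 5 5 5 5 1 5 7 5 (by norm_num) (by norm_num) (by norm_num) hq
  · exact of_pair 1 3 5 6 3 5 9 4 (by norm_num) (by norm_num) (by norm_num) hq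
  · exact of_pair 3 5 7 5 7 7 7 3 (by norm_num) (by norm_num) (by norm_num) hq
  · exact of_pair 3 3 5 6 5 7 7 4 (by norm_num) (by norm_num) (by norm_num) hq
  · exact of_pair 1 3 9 5 5 7 9 3 (by norm_num) (by norm_num) (by norm_num) hq
  · exact of_pair 1 5 5 6 1 1 7 6 (by norm_num) (by norm_num) (by norm_num) hq
  · exact of_pair 1 1 1 7 5 5 7 5 (by norm_num) (by norm_num) (by norm_num) hq

lemma of_shift {n q x y z d w w' : ℕ} (hq : q.Prime) (h2 : q ≠ 2)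
    (e : n = x ^ 2 + y ^ 2 + z ^ 2 + 4 * w ^ 2)
    (e' : n = x ^ 2 + y ^ 2 + (z + d) ^ 2 + 4 * w' ^ 2) (h : ¬ q ∣ 2 ^ d - 1) : Avoid n q := by
  by_cases h1 : q ∣ 2 ^ x + 2 ^ y + 2 ^ z + 1
  · refine ⟨x, y, z + d, w', e', fun h3 => h ?_⟩
    have h4 := Nat.dvd_sub h3 h1
    have h5 : 2 ^ x + 2 ^ y + 2 ^ (z + d) + 1 - (2 ^ x + 2 ^ y + 2 ^ z + 1) = 2 ^ z * (2 ^ d - 1) := by
      rw [Nat.mul_sub, pow_add]; omega
    rw [h5] at h4
    rcases (Nat.Prime.dvd_mul hq).mp h4 with h6 | h6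
    · exact absurd ((Nat.prime_dvd_prime_iff_eq hq Nat.prime_two).mp (hq.dvd_of_dvd_pow h6)) h2
    · exact h6
  · exact ⟨x, y, z, w, e, h1⟩

lemma avoid_two {n x y z w : ℕ} (e : n = x ^ 2 + y ^ 2 + z ^ 2 + 4 * w ^ 2) (hx : 0 < x)
    (h : (0 < y ∧ 0 < z) ∨ (y = 0 ∧ z = 0)) : Avoid n 2 :=
  ⟨x, y, z, w, e, by have := odd_val hx h; omega⟩

lemma one_mod_four {n q : ℕ} (h1 : n % 4 = 1) (hn : n ≠ 1) (hq : q.Prime) : Avoid n q := by
  obtain ⟨A, B, C, e, a, b, c⟩ := rep_two (2 * ((n : ℤ) - 2)) (by omega) (by omega)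
  have main : ∀ C : ℤ, A ^ 2 + B ^ 2 + C ^ 2 = 2 * ((n : ℤ) - 2) → (B - C) % 4 = 0 → Avoid n q := by
    intro C e h
    obtain ⟨v, hv⟩ : ∃ v, B - C = 4 * v := ⟨(B - C) / 4, by omega⟩
    obtain ⟨s, hs⟩ : ∃ s, |A| = 2 * s := ⟨|A| / 2, by rcases abs_cases A with h | h <;> omega⟩
    have hs0 : 0 ≤ s := by have := abs_nonneg A; omega
    have e1 : (B - 2 * v) ^ 2 + 4 * v ^ 2 + 2 * s ^ 2 + 2 = n := by
      have eC : C = B - 4 * v := by linarith
      rw [← sq_abs A, hs, eC] at e; nlinarith [e]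
    have p1 := sq_par (B - 2 * v); have p2 := sq_par s
    obtain ⟨t, ht⟩ : ∃ t, s = 2 * t + 1 := ⟨s / 2, by omega⟩
    obtain ⟨t, rfl⟩ := Int.eq_ofNat_of_zero_le (show 0 ≤ t by omega)
    set y := (B - 2 * v).natAbs with hy
    set u := v.natAbs with hu
    have hy0 : 0 < y := by omega
    have e2 : n = y ^ 2 + 4 * u ^ 2 + 2 * (2 * t + 1) ^ 2 + 2 := by
      have : ((y ^ 2 + 4 * u ^ 2 + 2 * (2 * t + 1) ^ 2 + 2 : ℕ) : ℤ) = n := by
        rw [hy, hu]; push_cast; simp only [sq_abs]; rw [← e1, ht]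
      exact_mod_cast this.symm
    by_cases h2 : q = 2
    · subst h2
      by_cases hu0 : u = 0
      · by_cases ht0 : t = 0
        · exact avoid_two (x := y) (y := 0) (z := 0) (w := 1) (by rw [e2, hu0, ht0]; ring) hy0
            (Or.inr ⟨rfl, rfl⟩)
        · exact avoid_two (x := y) (y := 2 * t) (z := 2 * t + 2) (w := 0) (by rw [e2, hu0]; ring) hy0
            (Or.inl ⟨by omega, by omega⟩)
      · exact avoid_two (x := y) (y := 2 * u) (z := 2 * t + 2) (w := t) (by rw [e2]; ring) hy0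
          (Or.inl ⟨by omega, by omega⟩)
    by_cases h3 : q = 3
    · subst h3
      have e3 : n = y ^ 2 + (2 * u) ^ 2 + (2 * t) ^ 2 + 4 * (t + 1) ^ 2 := by rw [e2]; ring
      exact ⟨_, _, _, _, e3, not_three_dvd (by omega) e3⟩
    refine of_shift (x := y) (y := 2 * u) (z := 2 * t) (d := 2) (w := t + 1) (w' := t) hq h2
      (by rw [e2]; ring) (by rw [e2]; ring) fun h => h3 ?_
    exact (Nat.prime_dvd_prime_iff_eq hq Nat.prime_three).mp h
  by_cases h : (B - C) % 4 = 0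
  · exact main C e h
  · exact main (-C) (by rw [neg_sq]; exact e) (by omega)

lemma fix_rep {n : ℕ} (h3 : n % 4 = 3) (x c : ℕ) (hx : x % 2 = 1) (hc : c % 2 = 1) (hn : x ^ 2 ≤ n)
    (hd : (c : ℤ) ^ 2 ∣ n - (x : ℤ) ^ 2) :
    ∃ y z w : ℕ, n = x ^ 2 + (c * y) ^ 2 + (c * z) ^ 2 + 4 * w ^ 2 ∧ y % 2 = 1 ∧ z % 2 = 1 := by
  obtain ⟨T, hT⟩ := hd
  have hn' : (x : ℤ) ^ 2 ≤ n := by exact_mod_cast hn
  have px := sq_par (x : ℤ); have pc := sq_par (c : ℤ)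
  have hc0 : (0 : ℤ) < (c : ℤ) ^ 2 := by
    have : (0 : ℤ) < c := by omega
    positivity
  have hT0 : 0 ≤ T := by
    by_contra h; push Not at h
    have := mul_neg_of_pos_of_neg hc0 h
    linarith
  have hT4 : T % 4 = 2 := by
    obtain ⟨s, hs⟩ : ∃ s, (c : ℤ) ^ 2 = 4 * s + 1 := ⟨(c : ℤ) ^ 2 / 4, by omega⟩
    have : (c : ℤ) ^ 2 * T = 4 * (s * T) + T := by rw [hs]; ring
    omega
  obtain ⟨A, B, C, e, a, b, c'⟩ := rep_two T hT0 hT4
  obtain ⟨w, rfl⟩ : ∃ w, A = 2 * w := ⟨A / 2, by omega⟩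
  refine ⟨B.natAbs, C.natAbs, c * w.natAbs, ?_, by omega, by omega⟩
  have : ((x ^ 2 + (c * B.natAbs) ^ 2 + (c * C.natAbs) ^ 2 + 4 * (c * w.natAbs) ^ 2 : ℕ) : ℤ) = n := by
    push_cast; simp only [mul_pow, sq_abs]; rw [← e] at hT; linarith
  exact_mod_cast this.symm

lemma fix_rep' {n : ℕ} (h3 : n % 4 = 3) (x : ℕ) (hx : x % 2 = 1) (hn : x ^ 2 ≤ n) :
    ∃ y z w : ℕ, n = x ^ 2 + y ^ 2 + z ^ 2 + 4 * w ^ 2 ∧ y % 2 = 1 ∧ z % 2 = 1 := by
  simpa using fix_rep h3 x 1 hx rfl hn (by simp)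

lemma pow_period {q d : ℕ} (h : 2 ^ d % q = 1 % q) (y : ℕ) : 2 ^ y % q = 2 ^ (y % d) % q := by
  conv_lhs => rw [← Nat.div_add_mod y d, pow_add, pow_mul, Nat.mul_mod, Nat.pow_mod, h,
    ← Nat.pow_mod, one_pow, ← Nat.mul_mod, one_mul]

lemma avoid_fix {n : ℕ} (h3 : n % 4 = 3) (x q d : ℕ) (hx : x % 2 = 1) (hn : x ^ 2 ≤ n)
    (hd : d % 2 = 0) (hd0 : 0 < d) (h : 2 ^ d % q = 1 % q)
    (hc : ∀ r < d, ∀ s < d, r % 2 = 1 → s % 2 = 1 → (2 ^ x + 2 ^ r + 2 ^ s + 1) % q ≠ 0) :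
    Avoid n q := by
  obtain ⟨y, z, w, e, hy, hz⟩ := fix_rep' h3 x hx hn
  refine ⟨x, y, z, w, e, fun hq => ?_⟩
  have d2 : 2 ∣ d := Nat.dvd_of_mod_eq_zero hd
  apply hc (y % d) (Nat.mod_lt _ hd0) (z % d) (Nat.mod_lt _ hd0)
    (by rw [Nat.mod_mod_of_dvd _ d2, hy]) (by rw [Nat.mod_mod_of_dvd _ d2, hz])
  have h1 : 2 ^ x + 2 ^ (y % d) + 2 ^ (z % d) + 1 ≡ 2 ^ x + 2 ^ y + 2 ^ z + 1 [MOD q] :=
    ((Nat.ModEq.add_left _ (pow_period h y).symm).add (pow_period h z).symm).add_right 1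
  exact h1.trans (Nat.modEq_zero_iff_dvd.mpr hq)

lemma nat_sq_three (t : ℕ) : (t % 3 = 0 ∧ t ^ 2 % 3 = 0 ∧ 2 ^ t % 7 = 1) ∨
    (t % 3 = 1 ∧ t ^ 2 % 3 = 1 ∧ 2 ^ t % 7 = 2) ∨ (t % 3 = 2 ∧ t ^ 2 % 3 = 1 ∧ 2 ^ t % 7 = 4) := by
  have h := pow_period (q := 7) (d := 3) (by norm_num) t
  have h2 := Nat.pow_mod t 2 3
  have : t % 3 = 0 ∨ t % 3 = 1 ∨ t % 3 = 2 := by omega
  rcases this with a | a | a <;> rw [a] at h h2 <;> simp [a, h, h2]

lemma avoid_seven {n : ℕ} (h3 : n % 4 = 3) (hn : 200 ≤ n) : Avoid n 7 := by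
  by_cases a : n % 3 = 2
  · obtain ⟨y, z, w, e, -, -⟩ := fix_rep' h3 1 rfl (by omega)
    refine ⟨1, y, z, w, e, ?_⟩
    have := nat_sq_three y; have := nat_sq_three z; have := nat_sq_three w
    omega
  by_cases b : n % 3 = 0
  · obtain ⟨y, z, w, e, -, -⟩ := fix_rep' h3 3 rfl (by omega)
    refine ⟨3, y, z, w, e, ?_⟩
    have := nat_sq_three y; have := nat_sq_three z; have := nat_sq_three w
    omega
  have main : ∀ x : ℕ, x % 2 = 1 → x ^ 2 ≤ n → 2 ^ x % 7 = 2 → ((3 : ℕ) : ℤ) ^ 2 ∣ n - (x : ℤ) ^ 2 →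
      Avoid n 7 := by
    intro x hx hn h7 hd
    obtain ⟨y, z, w, e, -, -⟩ := fix_rep h3 x 3 hx rfl hn hd
    refine ⟨x, 3 * y, 3 * z, w, e, ?_⟩
    have := nat_sq_three (3 * y); have := nat_sq_three (3 * z)
    omega
  have c : n % 9 = 1 ∨ n % 9 = 4 ∨ n % 9 = 7 := by omega
  rcases c with c | c | c
  · exact main 1 rfl (by omega) (by norm_num) (by norm_num; omega)
  · exact main 7 rfl (by omega) (by norm_num) (by norm_num; omega)
  · exact main 13 rfl (by omega) (by norm_num) (by norm_num; omega)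

lemma sq_five (x : ℤ) : (x % 5 = 0 ∧ x ^ 2 % 5 = 0) ∨ (x % 5 ≠ 0 ∧ (x ^ 2 % 5 = 1 ∨ x ^ 2 % 5 = 4)) := by
  obtain ⟨t, r, h, hr⟩ : ∃ t r, x = 5 * t + r ∧ (r = 0 ∨ r = 1 ∨ r = 2 ∨ r = 3 ∨ r = 4) :=
    ⟨x / 5, x % 5, by omega, by omega⟩
  have : x ^ 2 = 5 * (5 * t ^ 2 + 2 * t * r) + r ^ 2 := by rw [h]; ring
  rcases hr with rfl | rfl | rfl | rfl | rfl <;> omega

/-- The form `x^2+y^2+5a^2` represents every number that is 7 mod 8. -/
lemma rep_five (N : ℕ) (h : N % 8 = 7) : ∃ x y a : ℕ, N = x ^ 2 + y ^ 2 + 5 * a ^ 2 ∧ a % 2 = 1 := by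
  obtain ⟨X, Y, Z, e⟩ := rep_int (5 * N) (by omega) (by omega)
  have fin : ∀ x y a : ℤ, x ^ 2 + y ^ 2 + 5 * a ^ 2 = N →
      ∃ x y a : ℕ, N = x ^ 2 + y ^ 2 + 5 * a ^ 2 ∧ a % 2 = 1 := by
    intro x y a e
    have := sq_par x; have := sq_par y; have := sq_par a
    refine ⟨x.natAbs, y.natAbs, a.natAbs, ?_, by omega⟩
    have : ((x.natAbs ^ 2 + y.natAbs ^ 2 + 5 * a.natAbs ^ 2 : ℕ) : ℤ) = N := by
      push_cast; simp only [sq_abs]; exact e
    exact_mod_cast this.symm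
  have main2 : ∀ X Y a : ℤ, X ^ 2 + Y ^ 2 + 25 * a ^ 2 = 5 * N → (5 : ℤ) ∣ 2 * X + Y →
      ∃ x y a : ℕ, N = x ^ 2 + y ^ 2 + 5 * a ^ 2 ∧ a % 2 = 1 := by
    intro X Y a e ⟨x, hx⟩
    refine fin x (X - 2 * x) a ?_
    have : Y = 5 * x - 2 * X := by linarith
    rw [this] at e; nlinarith [e]
  have main : ∀ X Y Z : ℤ, X ^ 2 + Y ^ 2 + Z ^ 2 = 5 * N → Z % 5 = 0 →
      ∃ x y a : ℕ, N = x ^ 2 + y ^ 2 + 5 * a ^ 2 ∧ a % 2 = 1 := by
    intro X Y Z e hZ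
    obtain ⟨a, rfl⟩ : ∃ a, Z = 5 * a := ⟨Z / 5, by omega⟩
    have h5 : (5 : ℤ) ∣ (2 * X + Y) * (2 * X + -Y) := ⟨X ^ 2 - N + 5 * a ^ 2, by linarith⟩
    rcases Int.prime_iff_natAbs_prime.mpr (by norm_num) |>.dvd_or_dvd h5 with h6 | h6
    · exact main2 X Y a (by linarith) h6
    · exact main2 X (-Y) a (by linarith) h6
  have hX := sq_five X; have hY := sq_five Y; have hZ := sq_five Z
  by_cases c : Z % 5 = 0
  · exact main X Y Z e c
  · by_cases b : Y % 5 = 0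
    · exact main X Z Y (by linarith) b
    · exact main Y Z X (by linarith) (by omega)

lemma generic {n q : ℕ} (h3 : n % 4 = 3) (hn : 200 ≤ n) (hq : q.Prime) (h2 : q ≠ 2)
    (h : ∀ d, d = 2 ∨ d = 6 ∨ d = 8 ∨ d = 10 ∨ d = 14 ∨ d = 16 → ¬ q ∣ 2 ^ d - 1) : Avoid n q := by
  have main : ∀ b : ℕ, b = 1 ∨ b = 2 → (n - 20 * b ^ 2) % 8 = 7 → Avoid n q := by
    intro b hb h7
    have hb2 : 20 * b ^ 2 ≤ n := by rcases hb with rfl | rfl <;> omega
    obtain ⟨x, y, a, e, ha⟩ := rep_five _ h7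
    have e1 : n = x ^ 2 + y ^ 2 + 5 * a ^ 2 + 20 * b ^ 2 := by omega
    by_cases c : 4 * b ≤ a
    · obtain ⟨t, rfl⟩ := Nat.exists_eq_add_of_le c
      exact of_shift (x := x) (y := y) (z := t) (d := 8 * b) (w := 5 * b + t) (w' := 3 * b + t) hq h2
        (by rw [e1]; ring) (by rw [e1]; ring) (h _ (by omega))
    · obtain ⟨t, ht⟩ := Nat.exists_eq_add_of_le (show a ≤ 4 * b by omega)
      have e2 : n = x ^ 2 + y ^ 2 + t ^ 2 + 4 * (a + b) ^ 2 := by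
        have : (n : ℤ) = x ^ 2 + y ^ 2 + t ^ 2 + 4 * (a + b) ^ 2 := by
          have : (t : ℤ) = 4 * b - a := by omega
          rw [this, e1]; push_cast; ring
        exact_mod_cast this
      have e3 : n = x ^ 2 + y ^ 2 + (t + 2 * a) ^ 2 + 4 * ((a : ℤ) - b).natAbs ^ 2 := by
        have : (n : ℤ) = x ^ 2 + y ^ 2 + (t + 2 * a) ^ 2 + 4 * (((a : ℤ) - b).natAbs : ℤ) ^ 2 := by
          have : (t : ℤ) = 4 * b - a := by omega
          rw [Int.natAbs_sq, this, e1]; push_cast; ring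
        exact_mod_cast this
      exact of_shift hq h2 e2 e3 (h _ (by omega))
  by_cases c : n % 8 = 3
  · exact main 1 (Or.inl rfl) (by omega)
  · exact main 2 (Or.inr rfl) (by omega)

lemma three_mod_four {n q : ℕ} (h3 : n % 4 = 3) (hn : 200 ≤ n) (hq : q.Prime) : Avoid n q := by
  by_cases c2 : q = 2
  · subst c2
    obtain ⟨y, z, w, e, hy, hz⟩ := fix_rep' h3 1 rfl (by omega)
    exact avoid_two e one_pos (Or.inl ⟨by omega, by omega⟩)
  by_cases c3 : q = 3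
  · subst c3
    obtain ⟨y, z, w, e, hy, hz⟩ := fix_rep' h3 1 rfl (by omega)
    exact ⟨_, _, _, _, e, not_three_dvd (by omega) e⟩
  by_cases c7 : q = 7
  · subst c7; exact avoid_seven h3 hn
  by_cases c5 : q = 5
  · subst c5; exact avoid_fix h3 1 5 4 rfl (by omega) rfl (by norm_num) (by norm_num) (by decide)
  by_cases c17 : q = 17
  · subst c17; exact avoid_fix h3 1 17 8 rfl (by omega) rfl (by norm_num) (by norm_num) (by decide)
  by_cases c257 : q = 257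
  · subst c257
    exact avoid_fix h3 1 257 16 rfl (by omega) rfl (by norm_num) (by norm_num) (by decide)
  by_cases c31 : q = 31
  · subst c31; exact avoid_fix h3 1 31 10 rfl (by omega) rfl (by norm_num) (by norm_num) (by decide)
  by_cases c127 : q = 127
  · subst c127
    exact avoid_fix h3 1 127 14 rfl (by omega) rfl (by norm_num) (by norm_num) (by decide)
  by_cases c11 : q = 11
  · subst c11; exact avoid_fix h3 5 11 10 rfl (by omega) rfl (by norm_num) (by norm_num) (by decide)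
  by_cases c43 : q = 43
  · subst c43; exact avoid_fix h3 7 43 14 rfl (by omega) rfl (by norm_num) (by norm_num) (by decide)
  refine generic h3 hn hq c2 fun d hd hdv => ?_
  have h1 : q ∣ 3 * (3 * (7 * (5 * (17 * (257 * (31 * (127 * (11 * 43)))))))) := by
    refine hdv.trans ?_
    rcases hd with rfl | rfl | rfl | rfl | rfl | rfl <;> norm_num
  simp only [Nat.Prime.dvd_mul hq] at h1
  have p : ∀ r : ℕ, r.Prime → q ≠ r → ¬ q ∣ r := fun r hr hne h =>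
    hne ((Nat.prime_dvd_prime_iff_eq hq hr).mp h)
  rcases h1 with h | h | h | h | h | h | h | h | h | h
  · exact p 3 (by norm_num) c3 h
  · exact p 3 (by norm_num) c3 h
  · exact p 7 (by norm_num) c7 h
  · exact p 5 (by norm_num) c5 h
  · exact p 17 (by norm_num) c17 h
  · exact p 257 (by norm_num) c257 h
  · exact p 31 (by norm_num) c31 h
  · exact p 127 (by norm_num) c127 h
  · exact p 11 (by norm_num) c11 h
  · exact p 43 (by norm_num) c43 h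

theorem avoid_all {n q : ℕ} (ho : n % 2 = 1) (hex : n ∉ ({1, 3, 7, 11, 15, 23} : Finset ℕ))
    (hq : q.Prime) : Avoid n q := by
  by_cases h1 : n % 4 = 1
  · exact one_mod_four h1 (by rintro rfl; simp at hex) hq
  by_cases hn : 200 ≤ n
  · exact three_mod_four (by omega) hn hq
  obtain ⟨k, rfl⟩ : ∃ k, n = 4 * k + 3 := ⟨n / 4, by omega⟩
  exact small_case (by omega) hq hex

end Pool.Agent.Lib.MP_f6c7cf_nt
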